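import Mathlib
import Pool.Agent.Lib.MP_d1129e_lc.Perfect

/-!
If any two non-Borel analytic subsets of Baire space are comparable under continuous reductions,
then every coanalytic set is countable or contains a copy of the Cantor space.

For `X` coanalytic, uncountable and without perfect subset, the sets
`U = {z : ev z ∈ X or od z ∈ Q}` and `I = {z : ev z ∈ X and od z ∉ Q}` (`Q` the eventually zero
sequences) are coanalytic, not Borel and incomparable.
-/

set_option autoImplicit false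

namespace Pool.Agent.Lib.MP_2900b9_lc

open Set TopologicalSpace Filter Topology MeasureTheory

/-- Cantor space is Polish -/
instance polish_cantor : PolishSpace (ℕ → Bool) :=
  { toSecondCountableTopology := inferInstance
    toIsCompletelyMetrizableSpace := inferInstance }

/-- the even part -/
def ev (z : ℕ → ℕ) : ℕ → ℕ := fun n => z (2 * n)

/-- the odd part -/
def od (z : ℕ → ℕ) : ℕ → ℕ := fun n => z (2 * n + 1)

/-- the sequence with given even and odd part -/
def jn (x y : ℕ → ℕ) : ℕ → ℕ := fun n => if n % 2 = 0 then x (n / 2) else y (n / 2)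

lemma ev_jn (x y : ℕ → ℕ) : ev (jn x y) = x := by
  funext n
  simp [ev, jn]

lemma od_jn (x y : ℕ → ℕ) : od (jn x y) = y := by
  funext n
  have h1 : (2 * n + 1) % 2 = 1 := by omega
  have h2 : (2 * n + 1) / 2 = n := by omega
  simp [od, jn, h1, h2]

lemma continuous_ev : Continuous ev := continuous_pi fun n => continuous_apply (2 * n)

lemma continuous_od : Continuous od := continuous_pi fun n => continuous_apply (2 * n + 1)

lemma continuous_jn : Continuous fun p : (ℕ → ℕ) × (ℕ → ℕ) => jn p.1 p.2 := by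
  refine continuous_pi fun n => ?_
  unfold jn
  by_cases h : n % 2 = 0
  · simp only [h, if_true]
    fun_prop
  · simp only [h, if_false]
    fun_prop

/-- the embedding of Cantor space -/
def emb (b : ℕ → Bool) : ℕ → ℕ := fun n => if b n then 1 else 0

lemma continuous_emb : Continuous emb := by
  refine continuous_pi fun n => ?_
  have : Continuous fun c : Bool => (if c then 1 else 0 : ℕ) := continuous_of_discreteTopology
  exact this.comp (continuous_apply n)

lemma emb_injective : Function.Injective emb := by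
  intro a b h
  funext n
  have h1 := congrFun h n
  unfold emb at h1
  cases ha : a n <;> cases hb : b n <;> simp [ha, hb] at h1 ⊢

/-- the eventually zero sequences -/
def QQ : Set (ℕ → ℕ) := {y | ∃ n, ∀ i, n ≤ i → y i = 0}

lemma countable_QQ : QQ.Countable := by
  have h1 : QQ ⊆ ⋃ n : ℕ, range fun v : Fin n → ℕ => fun i : ℕ => if h : i < n then v ⟨i, h⟩ else 0 := by
    rintro y ⟨n, hn⟩
    refine mem_iUnion.2 ⟨n, fun i => y i, ?_⟩
    funext i
    by_cases hi : i < n
    · simp [hi]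
    · simp [hi, hn i (not_lt.1 hi)]
  exact (countable_iUnion fun n => countable_range _).mono h1

/-- a nonempty open set of Cantor space contains a cylinder around an eventually zero sequence -/
lemma exists_cyl {W : Set (ℕ → Bool)} (hW : IsOpen W) (hne : W.Nonempty) :
    ∃ (q : ℕ → Bool) (n : ℕ), emb q ∈ QQ ∧ PiNat.cylinder q n ⊆ W := by
  obtain ⟨a, ha⟩ := hne
  obtain ⟨_, ⟨x, n, rfl⟩, hax, hxW⟩ :=
    (PiNat.isTopologicalBasis_cylinders (fun _ : ℕ => Bool)).exists_subset_of_mem_open ha hW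
  refine ⟨fun i => if i < n then x i else false, n, ⟨n, fun i hi => ?_⟩, ?_⟩
  · have : ¬ i < n := not_lt.2 hi
    simp [emb, this]
  · refine Subset.trans ?_ hxW
    intro y hy i hi
    rw [hy i hi]
    simp [hi]

lemma dense_compl_point (c : ℕ → Bool) : Dense ({c}ᶜ : Set (ℕ → Bool)) := by
  rw [dense_iff_inter_open]
  intro W hW hne
  obtain ⟨q, n, -, hq⟩ := exists_cyl hW hne
  by_cases h : q = c
  · refine ⟨Function.update q n (!q n), hq ?_, ?_⟩
    · intro i hi
      rw [Function.update_of_ne hi.ne]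
    · intro h2
      have h3 := congrFun (mem_singleton_iff.1 h2) n
      rw [Function.update_self, ← h] at h3
      cases h4 : q n <;> simp [h4] at h3
  · exact ⟨q, hq (PiNat.self_mem_cylinder q n), h⟩

/-- a set without copy of the Cantor space -/
def Thin (X : Set (ℕ → ℕ)) : Prop :=
  ¬ ∃ e : (ℕ → Bool) → (ℕ → ℕ), Continuous e ∧ Function.Injective e ∧ ∀ α, e α ∈ X

/-- an analytic subset of a thin set is countable -/
lemma Thin.countable {X S : Set (ℕ → ℕ)} (hX : Thin X) (hS : AnalyticSet S) (h : S ⊆ X) :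
    S.Countable := by
  by_contra hunc
  rw [AnalyticSet] at hS
  rcases hS with rfl | ⟨g, hg, rfl⟩
  · exact hunc countable_empty
  · rw [← image_univ] at hunc
    obtain ⟨e, he, -, hinj⟩ := Pool.Agent.Mart.exists_cantor hg isOpen_univ hunc
    exact hX ⟨fun α => g (e α), hg.comp he, hinj, fun α => h (mem_range_self _)⟩

section main

variable {X : Set (ℕ → ℕ)}

/-- no reduction of the intersection set to the union set -/
lemma not_inter_le_union (hthin : Thin X) (hne : X.Nonempty) {f : (ℕ → ℕ) → (ℕ → ℕ)}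
    (hf : Continuous f)
    (h : ∀ z, (ev z ∈ X ∧ od z ∉ QQ) ↔ (ev (f z) ∈ X ∨ od (f z) ∈ QQ)) : False := by
  obtain ⟨x, hx⟩ := hne
  have hF : Continuous fun b : ℕ → Bool => f (jn x (emb b)) :=
    hf.comp (continuous_jn.comp (continuous_const.prodMk continuous_emb))
  set g : (ℕ → Bool) → (ℕ → ℕ) := fun b => ev (f (jn x (emb b))) with hg
  set k : (ℕ → Bool) → (ℕ → ℕ) := fun b => od (f (jn x (emb b))) with hk
  have hgc : Continuous g := continuous_ev.comp hF
  have hkc : Continuous k := continuous_od.comp hF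
  have h1 : ∀ b, emb b ∉ QQ ↔ (g b ∈ X ∨ k b ∈ QQ) := by
    intro b
    have := h (jn x (emb b))
    rw [ev_jn, od_jn] at this
    rw [← this]
    simp [hx]
  let R : Set (ℕ → Bool) := {b | emb b ∉ QQ ∧ k b ∉ QQ}
  have hQm : MeasurableSet[borel (ℕ → ℕ)] QQ := by
    letI : MeasurableSpace (ℕ → ℕ) := borel (ℕ → ℕ)
    haveI : BorelSpace (ℕ → ℕ) := ⟨rfl⟩
    exact countable_QQ.measurableSet
  have hR : AnalyticSet R := by
    letI : MeasurableSpace (ℕ → ℕ) := borel (ℕ → ℕ)
    haveI : BorelSpace (ℕ → ℕ) := ⟨rfl⟩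
    letI : MeasurableSpace (ℕ → Bool) := borel (ℕ → Bool)
    haveI : BorelSpace (ℕ → Bool) := ⟨rfl⟩
    refine MeasurableSet.analyticSet ?_
    exact (continuous_emb.measurable hQm.compl).inter (hkc.measurable hQm.compl)
  have hgR : (g '' R).Countable := by
    refine hthin.countable (hR.image_of_continuous hgc) ?_
    rintro _ ⟨b, ⟨hb1, hb2⟩, rfl⟩
    exact ((h1 b).1 hb1).resolve_right hb2
  -- the dense open sets
  let S : Set (Set (ℕ → Bool)) := ((fun q : ℕ → Bool => ({q}ᶜ : Set (ℕ → Bool))) '' {q | emb q ∈ QQ}) ∪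
    ((fun p : ℕ → ℕ => (g ⁻¹' {p})ᶜ) '' (g '' R)) ∪ ((fun p : ℕ → ℕ => (k ⁻¹' {p})ᶜ) '' QQ)
  have hS : S.Countable :=
    (((countable_QQ.preimage_of_injOn emb_injective.injOn).image _).union (hgR.image _)).union
      (countable_QQ.image _)
  have hdis : ∀ C : Set (ℕ → Bool), (∀ b ∈ C, emb b ∉ QQ) → Dense Cᶜ := by
    intro C hC
    rw [dense_iff_inter_open]
    intro W hW hWne
    obtain ⟨q, n, hq1, hq2⟩ := exists_cyl hW hWne
    exact ⟨q, hq2 (PiNat.self_mem_cylinder q n), fun h2 => hC q h2 hq1⟩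
  have hd : Dense (⋂₀ S) := by
    refine dense_sInter_of_isOpen ?_ hS ?_
    · rintro s ((⟨q, hq, rfl⟩ | ⟨p, hp, rfl⟩) | ⟨p, hp, rfl⟩)
      · exact isOpen_compl_singleton
      · exact (isClosed_singleton.preimage hgc).isOpen_compl
      · exact (isClosed_singleton.preimage hkc).isOpen_compl
    · rintro s ((⟨q, hq, rfl⟩ | ⟨p, ⟨b0, hb0, rfl⟩, rfl⟩) | ⟨p, hp, rfl⟩)
      · exact dense_compl_point q
      · refine hdis _ fun b hb => (h1 b).2 (Or.inl ?_)
        have : g b = g b0 := hb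
        rw [this]
        exact ((h1 b0).1 hb0.1).resolve_right hb0.2
      · refine hdis _ fun b hb => (h1 b).2 (Or.inr ?_)
        have : k b = p := hb
        rw [this]
        exact hp
  obtain ⟨b, hb⟩ := hd.nonempty
  have hb1 : emb b ∉ QQ := fun h2 => hb ({b}ᶜ) (Or.inl (Or.inl ⟨b, h2, rfl⟩)) rfl
  have hb2 : k b ∉ QQ := fun h2 => hb ((k ⁻¹' {k b})ᶜ) (Or.inr ⟨k b, h2, rfl⟩) rfl
  exact hb ((g ⁻¹' {g b})ᶜ) (Or.inl (Or.inr ⟨g b, ⟨b, ⟨hb1, hb2⟩, rfl⟩, rfl⟩)) rfl

/-- no reduction of the union set to the intersection set -/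
lemma not_union_le_inter (hthin : Thin X) (hunc : ¬ X.Countable) {f : (ℕ → ℕ) → (ℕ → ℕ)}
    (hf : Continuous f)
    (h : ∀ z, (ev z ∈ X ∨ od z ∈ QQ) ↔ (ev (f z) ∈ X ∧ od (f z) ∉ QQ)) : False := by
  have hF : Continuous fun p : (ℕ → ℕ) × (ℕ → Bool) => f (jn p.1 (emb p.2)) :=
    hf.comp (continuous_jn.comp (continuous_fst.prodMk (continuous_emb.comp continuous_snd)))
  set g : (ℕ → ℕ) → (ℕ → Bool) → (ℕ → ℕ) := fun x b => ev (f (jn x (emb b))) with hg
  set k : (ℕ → ℕ) → (ℕ → Bool) → (ℕ → ℕ) := fun x b => od (f (jn x (emb b))) with hk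
  have hgc : ∀ x, Continuous (g x) := fun x =>
    continuous_ev.comp (hF.comp (continuous_const.prodMk continuous_id))
  have hgc' : ∀ b, Continuous fun x => g x b := fun b =>
    continuous_ev.comp (hF.comp (continuous_id.prodMk continuous_const))
  have hkc : ∀ x, Continuous (k x) := fun x =>
    continuous_od.comp (hF.comp (continuous_const.prodMk continuous_id))
  have h1 : ∀ x b, (x ∈ X ∨ emb b ∈ QQ) ↔ (g x b ∈ X ∧ k x b ∉ QQ) := by
    intro x b
    have := h (jn x (emb b))
    rwa [ev_jn, od_jn] at this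
  -- the closed sets on which `g x` is constant on a cylinder
  let F : (ℕ → Bool) × ℕ → Set (ℕ → ℕ) := fun p =>
    {x | ∀ b ∈ PiNat.cylinder p.1 p.2, g x b = g x p.1}
  have hFc : ∀ p, IsClosed (F p) := by
    intro p
    have : F p = ⋂ b ∈ PiNat.cylinder p.1 p.2, {x | g x b = g x p.1} := by
      ext x
      simp [F]
    rw [this]
    exact isClosed_biInter fun b _ => isClosed_eq (hgc' b) (hgc' p.1)
  have hcov : X ⊆ ⋃ p ∈ ({q | emb q ∈ QQ} ×ˢ (univ : Set ℕ)), F p := by
    intro x hx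
    have hr : (range (g x)).Countable := by
      refine hthin.countable (analyticSet_range_of_polishSpace (hgc x)) ?_
      rintro _ ⟨b, rfl⟩
      exact ((h1 x b).1 (Or.inl hx)).1
    haveI : Countable (range (g x)) := hr.to_subtype
    have hne := nonempty_interior_of_iUnion_of_closed (X := ℕ → Bool)
      (f := fun y : range (g x) => g x ⁻¹' {(y : ℕ → ℕ)})
      (fun y => isClosed_singleton.preimage (hgc x)) (by
        rw [eq_univ_iff_forall]
        intro b
        exact mem_iUnion.2 ⟨⟨g x b, mem_range_self b⟩, rfl⟩)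
    obtain ⟨y, hy⟩ := hne
    obtain ⟨q, n, hq1, hq2⟩ := exists_cyl isOpen_interior hy
    refine mem_iUnion₂.2 ⟨(q, n), ⟨hq1, mem_univ _⟩, ?_⟩
    intro b hb
    have e0 := interior_subset (s := g x ⁻¹' {(y : ℕ → ℕ)})
    have e1 : g x b = y := e0 (hq2 hb)
    have e2 : g x q = y := e0 (hq2 (PiNat.self_mem_cylinder q n))
    rw [e1]
    exact e2.symm
  have hcount : ({q | emb q ∈ QQ} ×ˢ (univ : Set ℕ)).Countable :=
    (countable_QQ.preimage_of_injOn emb_injective.injOn).prod countable_univ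
  have hex : ∃ p ∈ ({q | emb q ∈ QQ} ×ˢ (univ : Set ℕ)), ¬ (F p).Countable := by
    by_contra hcon
    push Not at hcon
    exact hunc ((hcount.biUnion hcon).mono hcov)
  obtain ⟨⟨q, n⟩, ⟨hq, -⟩, hFu⟩ := hex
  have hex2 : ∃ x ∈ F (q, n), x ∉ X := by
    by_contra hcon
    push Not at hcon
    exact hFu (hthin.countable (hFc (q, n)).analyticSet hcon)
  obtain ⟨x, hxF, hxX⟩ := hex2
  have hpX : g x q ∈ X := ((h1 x q).1 (Or.inr hq)).1
  have key : ∀ b ∈ PiNat.cylinder q n, (emb b ∈ QQ ↔ k x b ∉ QQ) := by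
    intro b hb
    have h2 := h1 x b
    rw [hxF b hb] at h2
    constructor
    · intro h3
      exact (h2.1 (Or.inr h3)).2
    · intro h3
      exact (h2.2 ⟨hpX, h3⟩).resolve_left hxX
  -- the dense open sets
  let S : Set (Set (ℕ → Bool)) := ((fun q : ℕ → Bool => ({q}ᶜ : Set (ℕ → Bool))) '' {q | emb q ∈ QQ}) ∪
    ((fun p : ℕ → ℕ => (k x ⁻¹' {p} ∩ PiNat.cylinder q n)ᶜ) '' QQ)
  have hS : S.Countable :=
    ((countable_QQ.preimage_of_injOn emb_injective.injOn).image _).union (countable_QQ.image _)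
  have hcyl : IsClosed (PiNat.cylinder q n) := by
    have : PiNat.cylinder q n = ⋂ i ∈ {i | i < n}, {b : ℕ → Bool | b i = q i} := by
      ext b
      simp [PiNat.mem_cylinder_iff]
    rw [this]
    exact isClosed_biInter fun i _ => isClosed_eq (continuous_apply i) continuous_const
  have hd : Dense (⋂₀ S) := by
    refine dense_sInter_of_isOpen ?_ hS ?_
    · rintro s (⟨c, hc, rfl⟩ | ⟨p, hp, rfl⟩)
      · exact isOpen_compl_singleton
      · exact ((isClosed_singleton.preimage (hkc x)).inter hcyl).isOpen_compl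
    · rintro s (⟨c, hc, rfl⟩ | ⟨p, hp, rfl⟩)
      · exact dense_compl_point c
      · rw [dense_iff_inter_open]
        intro W hW hWne
        obtain ⟨c, m, hc1, hc2⟩ := exists_cyl hW hWne
        refine ⟨c, hc2 (PiNat.self_mem_cylinder c m), ?_⟩
        rintro ⟨h2, h3⟩
        have h4 : k x c = p := h2
        exact (key c h3).1 hc1 (h4 ▸ hp)
  have hco : IsOpen (PiNat.cylinder q n) := PiNat.isOpen_cylinder (fun _ => Bool) q n
  obtain ⟨b, hb1, hb2⟩ := (dense_iff_inter_open.1 hd) _ hco ⟨q, PiNat.self_mem_cylinder q n⟩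
  have hb3 : emb b ∉ QQ := fun h2 => hb2 ({b}ᶜ) (Or.inl ⟨b, h2, rfl⟩) rfl
  have hb4 : k x b ∉ QQ := fun h2 =>
    hb2 ((k x ⁻¹' {k x b} ∩ PiNat.cylinder q n)ᶜ) (Or.inr ⟨k x b, h2, rfl⟩) ⟨rfl, hb1⟩
  exact hb3 ((key b hb1).2 hb4)

end main

/-- the main theorem -/
theorem perfect_set_property
    (hcomp : ∀ A B : Set (ℕ → ℕ),
      AnalyticSet A → ¬ @MeasurableSet (ℕ → ℕ) (borel (ℕ → ℕ)) A →
      AnalyticSet B → ¬ @MeasurableSet (ℕ → ℕ) (borel (ℕ → ℕ)) B →
      (∃ f : (ℕ → ℕ) → (ℕ → ℕ), Continuous f ∧ ∀ x, x ∈ B ↔ f x ∈ A) ∨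
      (∃ f : (ℕ → ℕ) → (ℕ → ℕ), Continuous f ∧ ∀ x, x ∈ A ↔ f x ∈ B))
    {X : Set (ℕ → ℕ)} (hX : AnalyticSet Xᶜ) (hunc : ¬ X.Countable) :
    ∃ e : (ℕ → Bool) → (ℕ → ℕ), Continuous e ∧ Function.Injective e ∧ ∀ α, e α ∈ X := by
  by_contra hthin'
  have hthin : Thin X := hthin'
  letI : MeasurableSpace (ℕ → ℕ) := borel (ℕ → ℕ)
  haveI : BorelSpace (ℕ → ℕ) := ⟨rfl⟩
  have hne : X.Nonempty := by
    by_contra h
    rw [not_nonempty_iff_eq_empty] at h
    exact hunc (h ▸ countable_empty)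
  have hXnb : ¬ MeasurableSet X := fun h => hunc (hthin.countable h.analyticSet Subset.rfl)
  have hQm : MeasurableSet QQ := countable_QQ.measurableSet
  set A : Set (ℕ → ℕ) := {z | ev z ∈ X ∨ od z ∈ QQ}ᶜ with hA
  set B : Set (ℕ → ℕ) := {z | ev z ∈ X ∧ od z ∉ QQ}ᶜ with hB
  have hone : (fun _ : ℕ => 1) ∉ QQ := by
    rintro ⟨n, hn⟩
    exact absurd (hn n le_rfl) (by norm_num)
  have hjc : Continuous fun x : ℕ → ℕ => jn x fun _ => 1 :=
    continuous_jn.comp (continuous_id.prodMk (continuous_const (y := fun _ : ℕ => (1 : ℕ))))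
  have hAan : AnalyticSet A := by
    have h1 : A = ⋂ i : Bool, (if i then ev ⁻¹' Xᶜ else od ⁻¹' QQᶜ) := by
      ext z
      simp [hA, not_or]
      tauto
    rw [h1]
    refine AnalyticSet.iInter fun i => ?_
    cases i
    · exact (continuous_od.measurable hQm.compl).analyticSet
    · exact hX.preimage continuous_ev
  have hBan : AnalyticSet B := by
    have h1 : B = ⋃ i : Bool, (if i then ev ⁻¹' Xᶜ else od ⁻¹' QQ) := by
      ext z
      simp [hB]
      tauto
    rw [h1]
    refine AnalyticSet.iUnion fun i => ?_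
    cases i
    · exact (continuous_od.measurable hQm).analyticSet
    · exact hX.preimage continuous_ev
  have hAnb : ¬ MeasurableSet A := by
    intro h
    apply hXnb
    have h1 : X = (fun x : ℕ → ℕ => jn x fun _ => 1) ⁻¹' Aᶜ := by
      ext x
      simp [hA, ev_jn, od_jn, hone]
    rw [h1]
    exact hjc.measurable h.compl
  have hBnb : ¬ MeasurableSet B := by
    intro h
    apply hXnb
    have h1 : X = (fun x : ℕ → ℕ => jn x fun _ => 1) ⁻¹' Bᶜ := by
      ext x
      simp [hB, ev_jn, od_jn, hone]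
    rw [h1]
    exact hjc.measurable h.compl
  rcases hcomp A B hAan hAnb hBan hBnb with ⟨f, hf, h⟩ | ⟨f, hf, h⟩
  · refine not_inter_le_union hthin hne hf fun z => ?_
    have := h z
    simp only [hA, hB, mem_compl_iff, mem_setOf_eq] at this
    tauto
  · refine not_union_le_inter hthin hunc hf fun z => ?_
    have := h z
    simp only [hA, hB, mem_compl_iff, mem_setOf_eq] at this
    tauto

end Pool.Agent.Lib.MP_2900b9_lc
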