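import Mathlib
import Pool.Agent.Lib.MP_2900b9_lc.PSP

/-!
Perfect set games (Davis). In a run `z` of a game on `ω` player II plays the codes `z (2 n + 1)`
of finite `0`-`1`-sequences and player I answers with the bits `z (2 n + 2)` (the move `z 0` is
ignored); the concatenation is the outcome, a point of the Cantor space. Player II wants it to be
in `X`.
-/

set_option autoImplicit false

namespace Pool.Agent.Lib.MP_2900b9_lc

open Set TopologicalSpace Filter Topology MeasureTheory

/-- the finite sequence with code `k` -/
def decL (k : ℕ) : List Bool := (Encodable.decode k : Option (List Bool)).getD []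

/-- the bit chosen by player I -/
def bit (k : ℕ) : Bool := k == 1

/-- the position (a finite `0`-`1`-sequence) after `n` rounds of the run `z` -/
def pos (z : ℕ → ℕ) : ℕ → List Bool
  | 0 => []
  | n + 1 => pos z n ++ decL (z (2 * n + 1)) ++ [bit (z (2 * n + 2))]

/-- the outcome of the run `z` -/
def outcome (z : ℕ → ℕ) : ℕ → Bool := fun n => (pos z (n + 1)).getD n false

lemma le_length_pos (z : ℕ → ℕ) (n : ℕ) : n ≤ (pos z n).length := by
  induction n with
  | zero => simp
  | succ n ih => simp only [pos, List.length_append, List.length_singleton]; omega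

lemma pos_prefix_succ (z : ℕ → ℕ) (n : ℕ) : pos z n <+: pos z (n + 1) := by
  refine ⟨decL (z (2 * n + 1)) ++ [bit (z (2 * n + 2))], ?_⟩
  simp [pos]

lemma pos_prefix (z : ℕ → ℕ) {m n : ℕ} (h : m ≤ n) : pos z m <+: pos z n := by
  induction n, h using Nat.le_induction with
  | base => exact List.prefix_rfl
  | succ n _ ih => exact ih.trans (pos_prefix_succ z n)

lemma getD_of_prefix {l l' : List Bool} (h : l <+: l') {i : ℕ} (hi : i < l.length) :
    l'.getD i false = l.getD i false := by
  obtain ⟨t, rfl⟩ := h
  rw [List.getD_append _ _ _ _ hi]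

lemma outcome_eq (z : ℕ → ℕ) {n i : ℕ} (hi : i < (pos z n).length) :
    outcome z i = (pos z n).getD i false := by
  unfold outcome
  rcases le_total n (i + 1) with h | h
  · exact getD_of_prefix (pos_prefix z h) hi
  · have h1 : i < (pos z (i + 1)).length := lt_of_lt_of_le (Nat.lt_succ_self i) (le_length_pos z _)
    exact (getD_of_prefix (pos_prefix z h) h1).symm

lemma pos_congr {z z' : ℕ → ℕ} {n : ℕ} (h : ∀ i, i ≤ 2 * n → z i = z' i) :
    pos z n = pos z' n := by
  induction n with
  | zero => rfl
  | succ n ih =>
    rw [pos, pos, ih fun i hi => h i (by omega), h (2 * n + 1) (by omega),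
      h (2 * n + 2) (by omega)]

lemma continuous_outcome : Continuous outcome := by
  refine continuous_pi fun n => ?_
  rw [continuous_discrete_rng]
  intro b
  rw [isOpen_iff_forall_mem_open]
  intro z hz
  refine ⟨PiNat.cylinder z (2 * (n + 1) + 1), ?_, PiNat.isOpen_cylinder _ _ _,
    PiNat.self_mem_cylinder _ _⟩
  intro z' hz'
  have h1 : pos z' (n + 1) = pos z (n + 1) := pos_congr fun i hi => hz' i (by omega)
  simp only [outcome, mem_preimage, mem_singleton_iff] at hz ⊢
  rw [h1]
  exact hz

/-- `x` extends the finite sequence `l` -/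
def Ext (x : ℕ → Bool) (l : List Bool) : Prop := ∀ i < l.length, x i = l.getD i false

/-- the history as an infinite sequence -/
def ofHist (l : List ℕ) : ℕ → ℕ := fun i => l.getD i 0

lemma ofHist_ofFn (z : ℕ → ℕ) {m i : ℕ} (h : i < m) :
    ofHist (List.ofFn fun j : Fin m => z j.val) i = z i := by
  unfold ofHist
  rw [List.getD_eq_getElem _ _ (by simpa using h)]
  simp

/-- if `X` is countable then player I wins -/
theorem win_one {X : Set (ℕ → Bool)} (hX : X.Countable) :
    ∃ σ : List ℕ → ℕ, ∀ z : ℕ → ℕ,
      (∀ n : ℕ, z (2 * n) = σ (List.ofFn fun i : Fin (2 * n) => z i.val)) → outcome z ∉ X := by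
  rcases X.eq_empty_or_nonempty with rfl | hne
  · exact ⟨fun _ => 0, fun z _ => notMem_empty _⟩
  obtain ⟨x, hx⟩ := hX.exists_eq_range hne
  -- the position before the bit of round `n`
  let q : (ℕ → ℕ) → ℕ → List Bool := fun z n => pos z n ++ decL (z (2 * n + 1))
  refine ⟨fun l => if x (l.length / 2 - 1) (q (ofHist l) (l.length / 2 - 1)).length then 0 else 1,
    fun z hz => ?_⟩
  rw [hx]
  rintro ⟨n, hn⟩
  have h1 := hz (n + 1)
  have hlen : (List.ofFn fun i : Fin (2 * (n + 1)) => z i.val).length / 2 - 1 = n := by
    rw [List.length_ofFn]; omega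
  have hq : q (ofHist (List.ofFn fun i : Fin (2 * (n + 1)) => z i.val)) n = q z n := by
    have e1 : pos (ofHist (List.ofFn fun i : Fin (2 * (n + 1)) => z i.val)) n = pos z n :=
      pos_congr fun i hi => ofHist_ofFn z (by omega)
    have e2 : ofHist (List.ofFn fun i : Fin (2 * (n + 1)) => z i.val) (2 * n + 1) =
        z (2 * n + 1) := ofHist_ofFn z (by omega)
    simp only [q]
    rw [e1, e2]
  simp only [hlen, hq] at h1
  have h2 : pos z (n + 1) = q z n ++ [bit (z (2 * n + 2))] := rfl
  have h3 : outcome z (q z n).length = bit (z (2 * n + 2)) := by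
    rw [outcome_eq z (n := n + 1) (by rw [h2]; simp), h2]
    simp
  have h4 : z (2 * n + 2) = if x n (q z n).length then 0 else 1 := h1
  rw [← hn, h4] at h3
  cases h5 : x n (q z n).length <;> simp [h5, bit] at h3

/-- in a copy of the Cantor space every position can be split -/
lemma exists_split {e : (ℕ → Bool) → (ℕ → Bool)} (he : Continuous e)
    (hinj : Function.Injective e) {l : List Bool} (h : ∃ α, Ext (e α) l) :
    ∃ s : List Bool, ∀ b : Bool, ∃ α, Ext (e α) (l ++ s ++ [b]) := by
  obtain ⟨α, hα⟩ := h
  have hopen : IsOpen {β | Ext (e β) l} := by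
    have : {β | Ext (e β) l} = ⋂ i ∈ {i | i < l.length}, {β | e β i = l.getD i false} := by
      ext β; simp [Ext]
    rw [this]
    refine (Set.finite_lt_nat _).isOpen_biInter fun i _ => ?_
    have h1 : Continuous fun β => e β i := (continuous_apply i).comp he
    exact h1.isOpen_preimage {l.getD i false} (isOpen_discrete _)
  obtain ⟨β, hβ, hne⟩ := (dense_iff_inter_open.1 (dense_compl_point α)) _ hopen ⟨α, hα⟩
  have hne' : e α ≠ e β := fun h2 => hne (hinj h2.symm)
  have hex : ∃ m, e α m ≠ e β m := by
    by_contra hcon
    push Not at hcon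
    exact hne' (funext hcon)
  classical
  let m := Nat.find hex
  have hm : e α m ≠ e β m := Nat.find_spec hex
  have hlt : ∀ i < m, e α i = e β i := fun i hi => not_not.1 (Nat.find_min hex hi)
  have hlm : l.length ≤ m := by
    by_contra hcon
    push Not at hcon
    exact hm ((hα m hcon).trans (hβ m hcon).symm)
  refine ⟨(List.ofFn fun i : Fin (m - l.length) => e α (l.length + i.val)), fun b => ?_⟩
  have key : ∀ x : ℕ → Bool, (∀ i < m, x i = e α i) → x m = b →
      Ext x (l ++ (List.ofFn fun i : Fin (m - l.length) => e α (l.length + i.val)) ++ [b]) := by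
    intro x h1 h2 i hi
    simp only [List.length_append, List.length_ofFn, List.length_singleton] at hi
    rcases lt_or_ge i l.length with h3 | h3
    · rw [List.append_assoc, List.getD_append _ _ _ _ h3, h1 i (by omega)]
      exact hα i h3
    · rcases lt_or_ge i m with h4 | h4
      · rw [List.append_assoc, List.getD_append_right _ _ _ _ h3, List.getD_append _ _ _ _
          (by simp only [List.length_ofFn]; omega),
          List.getD_eq_getElem _ _ (by simp only [List.length_ofFn]; omega), List.getElem_ofFn,
          h1 i h4]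
        have h5 : l.length + (i - l.length) = i := by omega
        change e α i = e α (l.length + (i - l.length))
        rw [h5]
      · have h5 : i = m := by omega
        subst h5
        rw [List.getD_append_right _ _ _ _ (by simp only [List.length_append, List.length_ofFn]; omega)]
        simp only [List.length_append, List.length_ofFn]
        have : m - (l.length + (m - l.length)) = 0 := by omega
        rw [this, h2]
        rfl
  by_cases hb : e α m = b
  · exact ⟨α, key _ (fun _ _ => rfl) hb⟩
  · refine ⟨β, key _ (fun i hi => (hlt i hi).symm) ?_⟩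
    cases h1 : e α m <;> cases h2 : e β m <;> cases b <;> simp_all

/-- if `X` contains a copy of the Cantor space then player II wins -/
theorem win_two {X : Set (ℕ → Bool)} {e : (ℕ → Bool) → (ℕ → Bool)} (he : Continuous e)
    (hinj : Function.Injective e) (heX : ∀ α, e α ∈ X) :
    ∃ τ : List ℕ → ℕ, ∀ z : ℕ → ℕ,
      (∀ n : ℕ, z (2 * n + 1) = τ (List.ofFn fun i : Fin (2 * n + 1) => z i.val)) →
        outcome z ∈ X := by
  classical
  let sp : List Bool → List Bool := fun l =>
    if h : ∃ α, Ext (e α) l then (exists_split he hinj h).choose else []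
  have hsp : ∀ l, (∃ α, Ext (e α) l) → ∀ b, ∃ α, Ext (e α) (l ++ sp l ++ [b]) := by
    intro l h b
    simp only [sp, dif_pos h]
    exact (exists_split he hinj h).choose_spec b
  refine ⟨fun l => Encodable.encode (sp (pos (ofHist l) (l.length / 2))), fun z hz => ?_⟩
  have hmove : ∀ n, decL (z (2 * n + 1)) = sp (pos z n) := by
    intro n
    have h1 := hz n
    have hlen : (List.ofFn fun i : Fin (2 * n + 1) => z i.val).length / 2 = n := by
      rw [List.length_ofFn]; omega
    have e1 : pos (ofHist (List.ofFn fun i : Fin (2 * n + 1) => z i.val)) n = pos z n :=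
      pos_congr fun i hi => ofHist_ofFn z (by omega)
    simp only [hlen, e1] at h1
    rw [h1]
    simp [decL]
  have hinv : ∀ n, ∃ α, Ext (e α) (pos z n) := by
    intro n
    induction n with
    | zero => exact ⟨fun _ => false, fun i hi => by simp [pos] at hi⟩
    | succ n ih =>
      rw [pos, hmove n]
      exact hsp _ ih _
  -- the outcome is in the closed set `range e`
  have hcl : IsClosed (range e) := (isCompact_range he).isClosed
  have hmem : outcome z ∈ closure (range e) := by
    rw [mem_closure_iff_nhds_basis' ((PiNat.isTopologicalBasis_cylinders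
      (fun _ : ℕ => Bool)).nhds_hasBasis)]
    rintro U ⟨⟨x, n, rfl⟩, hU⟩
    obtain ⟨α, hα⟩ := hinv n
    refine ⟨e α, fun i hi => ?_, mem_range_self α⟩
    have h1 : i < (pos z n).length := lt_of_lt_of_le hi (le_length_pos z n)
    rw [hα i h1, ← outcome_eq z h1]
    exact hU i hi
  rw [hcl.closure_eq] at hmem
  obtain ⟨α, hα⟩ := hmem
  rw [← hα]
  exact heX α

end Pool.Agent.Lib.MP_2900b9_lc
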